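import Pool.Agent.Helper57.SI.Stmts

/-! Row SOB of the sheet SI (MP_818aa8_nt). -/

set_option autoImplicit false

namespace Pool.Agent.Helper55.SI

open MeasureTheory Set Filter Topology
open Pool.Agent.Helper57.SI

theorem sob_abs (x : ℝ) : |x| ≤ Real.exp x + Real.exp (-x) := by
  have h1 := Real.add_one_le_exp x
  have h2 := Real.add_one_le_exp (-x)
  have h3 := Real.exp_pos x
  have h4 := Real.exp_pos (-x)
  rcases abs_cases x with ⟨h, -⟩ | ⟨h, -⟩ <;> rw [h] <;> linarith

theorem st_SOB : ST_SOB := by
  intro R R' l hl hR hc t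
  have hRc : Continuous R := continuous_iff_continuousAt.2 fun s => (hR s).continuousAt
  set F : ℝ → ℝ := fun s => Real.exp (l * R s) with hF
  set F' : ℝ → ℝ := fun s => Real.exp (l * R s) * (l * R' s) with hF'
  have hFd : ∀ s, HasDerivAt F (F' s) s := fun s => ((hR s).const_mul l).exp
  have hFc : Continuous F := Real.continuous_exp.comp (continuous_const.mul hRc)
  have hF'c : Continuous F' := hFc.mul (continuous_const.mul hc)
  have hA : Continuous fun s => |F' s| := hF'c.abs
  set I : ℝ := ∫ s in t..(t + 1), |F' s| with hI
  have h1 : ∀ s ∈ Icc t (t + 1), F t ≤ F s + I := by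
    intro s hs
    have e1 : ∫ x in t..s, F' x = F s - F t :=
      intervalIntegral.integral_eq_sub_of_hasDerivAt (fun x _ => hFd x)
        (hF'c.intervalIntegrable _ _)
    have e2 : |∫ x in t..s, F' x| ≤ ∫ x in t..s, |F' x| :=
      intervalIntegral.abs_integral_le_integral_abs hs.1
    have e3 : (∫ x in t..s, |F' x|) + ∫ x in s..(t + 1), |F' x| = I :=
      intervalIntegral.integral_add_adjacent_intervals (hA.intervalIntegrable _ _)
        (hA.intervalIntegrable _ _)
    have e4 : 0 ≤ ∫ x in s..(t + 1), |F' x| :=
      intervalIntegral.integral_nonneg hs.2 fun x _ => abs_nonneg _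
    rw [e1] at e2
    have e5 := neg_abs_le (F s - F t)
    linarith
  have h2 : F t ≤ (∫ s in t..(t + 1), F s) + I := by
    have e1 : ∫ _ in t..(t + 1), F t = F t := by
      rw [intervalIntegral.integral_const]
      simp
    have e2 : ∫ s in t..(t + 1), (F s + I) = (∫ s in t..(t + 1), F s) + I := by
      rw [intervalIntegral.integral_add (hFc.intervalIntegrable _ _)
        (continuous_const.intervalIntegrable _ _), intervalIntegral.integral_const]
      simp
    rw [← e2]
    calc F t = ∫ _ in t..(t + 1), F t := e1.symm
      _ ≤ ∫ s in t..(t + 1), (F s + I) :=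
        intervalIntegral.integral_mono_on (by linarith) (continuous_const.intervalIntegrable _ _)
          ((hFc.add continuous_const).intervalIntegrable _ _) h1
  have h3 : (∫ s in t..(t + 1), F s) + I = ∫ s in t..(t + 1), (F s + |F' s|) :=
    (intervalIntegral.integral_add (hFc.intervalIntegrable _ _)
      (hA.intervalIntegrable _ _)).symm
  rw [h3] at h2
  refine h2.trans ?_
  have c1 : Continuous fun s => Real.exp (l * R s + R' s) :=
    Real.continuous_exp.comp ((continuous_const.mul hRc).add hc)
  have c2 : Continuous fun s => Real.exp (l * R s - R' s) :=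
    Real.continuous_exp.comp ((continuous_const.mul hRc).sub hc)
  refine intervalIntegral.integral_mono_on (by linarith)
    ((hFc.add hA).intervalIntegrable _ _)
    (((hFc.add (continuous_const.mul c1)).add (continuous_const.mul c2)).intervalIntegrable _ _)
    fun s _ => ?_
  have p := Real.exp_pos (l * R s)
  have q := sob_abs (R' s)
  have r : |F' s| = l * (Real.exp (l * R s) * |R' s|) := by
    rw [hF']
    simp only
    rw [abs_mul, abs_mul, abs_of_pos p, abs_of_pos hl]
    ring
  rw [r, Real.exp_add, Real.exp_sub, div_eq_mul_inv, ← Real.exp_neg]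
  have m : Real.exp (l * R s) * |R' s| ≤
      Real.exp (l * R s) * (Real.exp (R' s) + Real.exp (-R' s)) :=
    mul_le_mul_of_nonneg_left q p.le
  have m2 := mul_le_mul_of_nonneg_left m hl.le
  show Real.exp (l * R s) + l * (Real.exp (l * R s) * |R' s|) ≤ _
  linarith

end Pool.Agent.Helper55.SI
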